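import Pool.Agent.Helper88_SA.StmtD

/-! Module DFIN of squad SA. -/

namespace SA.H42

open Filter Topology SA

theorem kap0_le (n : ℕ) (hn : n < 171) : kap0 n ≤ 55 := by
  have h : ∀ n : Fin 171, kap0 n ≤ 55 := by decide +kernel
  exact h ⟨n, hn⟩

theorem one_lt_Tlo : 1 < Tlo := by
  unfold Tlo Tm
  norm_num

theorem dualFin : DualFinStmt := by
  intro hDsol hZenc hRange hTailW hContr hBnd hInitW
  intro T z κ hT1 hT2 hz0 hz1 hgam hκ N hN
  have hle : ∀ n, κ n ≤ 55 := by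
    intro n
    rcases Nat.lt_or_ge n 171 with h | h
    · rw [hκ.init n h]; exact kap0_le n h
    · exact (hκ.le n h).trans (by norm_num)
  obtain ⟨S, y, D, hD, hprof⟩ := hDsol T z κ N (lt_of_lt_of_le one_lt_Tlo hT1) hz0 hz1 hgam hle
  have hc1 : ∀ n, 171 ≤ n → cut κ N n ≤ 10 := by
    intro n hn
    unfold cut
    split_ifs
    · exact hκ.le n hn
    · omega
  have hcpos : ∀ n, 0 < cut κ N n → 0 < κ n := by
    intro n hn
    unfold cut at hn
    split_ifs at hn
    · exact hn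
    · omega
  have hc2 : ∀ n n', 171 ≤ n → n < n' → 0 < cut κ N n → 0 < cut κ N n' →
      n' ≤ n + 9 ∨ n + 39 ≤ n' :=
    fun n n' h1 h2 h3 h4 => hκ.sep n n' h1 h2 (hcpos n h3) (hcpos n' h4)
  have hc3 : ∀ n, 171 ≤ n → n ≤ 8000 → cut κ N n = 0 := by
    intro n h1 h2
    unfold cut
    split_ifs
    · exact hκ.quiet n h1 h2
    · rfl
  have hc4 : ∀ n, n < 171 → cut κ N n = kap0 n := by
    intro n hn
    unfold cut
    rw [if_pos (by omega)]
    exact hκ.init n hn
  obtain ⟨hz2, hz3⟩ := hZenc T z hT1 hT2 hz0 hz1 hgam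
  have hR := hRange T z (cut κ N) N S y D hT1 hT2 hz2 hz3 hD hc1 hc2
  have hC := hContr T z (cut κ N) N S y D hT1 hT2 hD hc3 hR
  have hB := hBnd T z (cut κ N) N S y D hT1 hT2 hD hc3 hC
  have hI := hInitW T z (cut κ N) N S y D hT1 hT2 hD hc4 hB
  have hTW := hTailW T z (cut κ N) N S y D hT1 hT2 hz2 hz3 hD hc1 hc2
  have hW : ∀ n, WAt (cut κ N) y D n := by
    intro n
    rcases Nat.lt_or_ge n 171 with h | h
    · exact hI n h
    · exact hTW n h
  intro m hm r hr1 hr2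
  have hn : N - (m + 1) + 1 = N - m := by omega
  have hcut : cut κ N (N - (m + 1)) = κ (N - (m + 1)) := by
    unfold cut
    rw [if_pos (by omega)]
  have hw := hW (N - (m + 1)) r hr1 hr2
  have hy := hD.y_def (N - (m + 1))
  have hp := (hprof m hm.le).2
  rw [hcut] at hw hy
  rw [hn] at hw hy
  rw [hp r hr2, hp (56 - κ (N - (m + 1))) (by omega), ← hy]
  exact hw

end SA.H42
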