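import Pool.Agent.Helper88_SA.StmtG

/-! Module GEO of squad SA: the geometric test. -/

namespace SA.H42

open Filter Topology SA

theorem sg_top {mu sg : ℕ → ℕ → ℝ} (h : IsFlow mu sg) (n : ℕ) {r : ℕ} (hr : 56 < r) :
    sg n r = 0 :=
  le_antisymm ((h.sg_le n r).trans (h.top n r hr).le) (h.sg_nonneg n r)

theorem mu_nonneg {mu sg : ℕ → ℕ → ℝ} (h : IsFlow mu sg) (n r : ℕ) : 0 ≤ mu n r :=
  (h.sg_nonneg n r).trans (h.sg_le n r)

theorem mass {mu sg : ℕ → ℕ → ℝ} (h : IsFlow mu sg) (n : ℕ) :
    ∑ r ∈ Finset.range 57, mu n r = 1 := by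
  induction n with
  | zero =>
    simp only [h.init]
    rw [Finset.sum_ite_eq']
    simp
  | succ n ih =>
    have h1 : ∀ r, mu (n + 1) r = mu n r + (sg n (r + 1) - sg n r) := by
      intro r
      rw [h.step n r]; ring
    simp only [h1]
    rw [Finset.sum_add_distrib, ih, Finset.sum_range_sub, h.sg_zero n,
      sg_top h n (by norm_num : 56 < 57)]
    ring

theorem fR_nonneg {mu sg : ℕ → ℕ → ℝ} (h : IsFlow mu sg) (n : ℕ) : 0 ≤ fR mu n :=
  Finset.sum_nonneg fun r _ => mul_nonneg (Nat.cast_nonneg r) (mu_nonneg h n r)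

theorem fR_le {mu sg : ℕ → ℕ → ℝ} (h : IsFlow mu sg) (n : ℕ) : fR mu n ≤ 56 := by
  have h1 : fR mu n ≤ ∑ r ∈ Finset.range 57, (56 : ℝ) * mu n r := by
    refine Finset.sum_le_sum fun r hr => ?_
    refine mul_le_mul_of_nonneg_right ?_ (mu_nonneg h n r)
    have : r ≤ 56 := by have := Finset.mem_range.1 hr; omega
    exact_mod_cast this
  rwa [← Finset.mul_sum, mass h n, mul_one] at h1

/-- Abel summation with a geometric weight. -/
theorem abel_geo (z : ℝ) (hz1 : z < 1) (f : ℕ → ℝ) (L : ℕ) :
    ∑ k ∈ Finset.range L, z ^ k / (1 - z) * f k =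
      ∑ k ∈ Finset.range L, z ^ k * ∑ j ∈ Finset.range (k + 1), f j +
        z ^ L / (1 - z) * ∑ j ∈ Finset.range L, f j := by
  have hne : (1 - z) ≠ 0 := by linarith
  induction L with
  | zero => simp
  | succ L ih =>
    rw [Finset.sum_range_succ, ih, Finset.sum_range_succ, Finset.sum_range_succ (fun j => f j) L,
      pow_succ]
    field_simp
    ring

theorem geoGen (hPot : PotStmt) : GeoGenStmt := by
  intro T z c mu sg n hT hz0 hz1 hgam hgam56 hf hc
  have h1z : 0 < 1 - z := by linarith
  have hne : (1 - z) ≠ 0 := h1z.ne'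
  set Th : ℝ := 1 / (1 - z) ^ 2 with hTh
  have hThpos : 0 < Th := by positivity
  set V : ℕ → ℕ → ℝ := fun m r => z ^ (m - n) * ((r : ℝ) * Th - gam T z r) with hV
  set S : ℕ → ℝ := fun m => z ^ (m - n) / (1 - z) with hS
  set y : ℕ → ℝ := fun m => T * z ^ (m - n) with hy
  have key : ∀ L : ℕ, ∑ r ∈ Finset.range 57, mu n r * V n r ≤
      (c - ∑ j ∈ Finset.range n, fR mu j) * ((1 - z ^ L) / (1 - z)) +
        (56 / (1 - z) * ((L : ℝ) * z ^ L) + 56 * Th * z ^ L) := by
    intro L
    have hp := hPot mu sg V S y n (n + L) hf (by omega) (by intro m; simp [hV, gam])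
      (by
        intro m r hm1 hm2 hr1 hr2
        have hk : m + 1 - n = (m - n) + 1 := by omega
        simp only [hV, hS, hk, pow_succ]
        have hg := hgam r hr2
        have hzk : 0 ≤ z ^ (m - n) := by positivity
        have e : (r : ℝ) * (z ^ (m - n) / (1 - z)) + z ^ (m - n) * z * ((r : ℝ) * Th - gam T z r)
            - z ^ (m - n) * ((r : ℝ) * Th - gam T z r) = z ^ (m - n) * ((1 - z) * gam T z r) := by
          rw [hTh]; field_simp; ring
        have h2 : 0 ≤ z ^ (m - n) * ((1 - z) * gam T z r) := by positivity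
        linarith)
      (by
        intro m r hm1 hm2 hr1 hr2
        obtain ⟨r', rfl⟩ : ∃ r', r = r' + 1 := ⟨r - 1, by omega⟩
        have hk : m + 1 - n = (m - n) + 1 := by omega
        simp only [hV, hS, hy, hk, pow_succ, Nat.add_sub_cancel]
        have hgr : gam T z (r' + 1) = z / (z - 1) ^ 2 - ((r' : ℝ) + 1) * T + z * gam T z r' := rfl
        rw [hgr]
        have hne' : (z - 1) ≠ 0 := by linarith
        have hsq : (z - 1) ^ 2 = (1 - z) ^ 2 := by ring
        rw [hsq]
        apply le_of_eq
        rw [hTh]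
        push_cast
        field_simp
        ring)
    refine hp.trans ?_
    -- bound of the last term
    have hlast : ∑ r ∈ Finset.range 57, mu (n + L) r * V (n + L) r ≤ 56 * Th * z ^ L := by
      have h2 : ∀ r ∈ Finset.range 57, mu (n + L) r * V (n + L) r ≤
          (Th * z ^ L) * ((r : ℝ) * mu (n + L) r) := by
        intro r hr
        have hr' : r ≤ 56 := by have := Finset.mem_range.1 hr; omega
        have hg := hgam r hr'
        have hmu := mu_nonneg hf (n + L) r
        have hzL : 0 ≤ z ^ L := by positivity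
        have hk : n + L - n = L := by omega
        simp only [hV, hk]
        have : 0 ≤ mu (n + L) r * (z ^ L * gam T z r) := by positivity
        nlinarith
      refine (Finset.sum_le_sum h2).trans ?_
      rw [← Finset.mul_sum]
      have h3 := fR_le hf (n + L)
      have h4 : 0 ≤ Th * z ^ L := by positivity
      calc Th * z ^ L * fR mu (n + L) ≤ Th * z ^ L * 56 := mul_le_mul_of_nonneg_left h3 h4
        _ = 56 * Th * z ^ L := by ring
    -- the main sum
    have hmain : ∑ m ∈ Finset.Ico n (n + L), (S m * fR mu m + y m * fE sg m) ≤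
        (c - ∑ j ∈ Finset.range n, fR mu j) * ((1 - z ^ L) / (1 - z)) +
          56 / (1 - z) * ((L : ℝ) * z ^ L) := by
      rw [Finset.sum_Ico_eq_sum_range]
      have e1 : ∀ k, S (n + k) * fR mu (n + k) + y (n + k) * fE sg (n + k) =
          z ^ k / (1 - z) * fR mu (n + k) + z ^ k * (T * fE sg (n + k)) := by
        intro k
        have hk : n + k - n = k := by omega
        simp only [hS, hy, hk]
        ring
      have e0 : n + L - n = L := by omega
      rw [e0]
      simp only [e1]
      rw [Finset.sum_add_distrib, abel_geo z hz1 (fun k => fR mu (n + k)) L]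
      have h5 : ∀ k, (∑ j ∈ Finset.range (k + 1), fR mu (n + j)) + T * fE sg (n + k) ≤
          c - ∑ j ∈ Finset.range n, fR mu j := by
        intro k
        have h6 := hc (n + k) (by omega)
        have h7 : fC mu (n + k) = ∑ j ∈ Finset.range n, fR mu j +
            ∑ j ∈ Finset.range (k + 1), fR mu (n + j) := by
          unfold fC
          rw [add_assoc, Finset.sum_range_add]
        rw [h7] at h6
        linarith
      have h8 : ∑ k ∈ Finset.range L, z ^ k * ∑ j ∈ Finset.range (k + 1), fR mu (n + j) +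
          ∑ k ∈ Finset.range L, z ^ k * (T * fE sg (n + k)) ≤
          (c - ∑ j ∈ Finset.range n, fR mu j) * ((1 - z ^ L) / (1 - z)) := by
        rw [← Finset.sum_add_distrib]
        have h9 : ∑ k ∈ Finset.range L, (z ^ k * ∑ j ∈ Finset.range (k + 1), fR mu (n + j) +
            z ^ k * (T * fE sg (n + k))) ≤
            ∑ k ∈ Finset.range L, z ^ k * (c - ∑ j ∈ Finset.range n, fR mu j) := by
          refine Finset.sum_le_sum fun k _ => ?_
          rw [← mul_add]
          exact mul_le_mul_of_nonneg_left (h5 k) (by positivity)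
        refine h9.trans (le_of_eq ?_)
        rw [← Finset.sum_mul, geom_sum_eq hz1.ne L, mul_comm]
        congr 1
        rw [← neg_div_neg_eq]
        congr 1 <;> ring
      have h10 : ∑ j ∈ Finset.range L, fR mu (n + j) ≤ 56 * (L : ℝ) := by
        have : ∑ j ∈ Finset.range L, fR mu (n + j) ≤ ∑ _j ∈ Finset.range L, (56 : ℝ) :=
          Finset.sum_le_sum fun j _ => fR_le hf (n + j)
        refine this.trans (le_of_eq ?_)
        rw [Finset.sum_const, Finset.card_range, nsmul_eq_mul]
        ring
      have h11 : z ^ L / (1 - z) * ∑ j ∈ Finset.range L, fR mu (n + j) ≤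
          56 / (1 - z) * ((L : ℝ) * z ^ L) := by
        have h12 : 0 ≤ z ^ L / (1 - z) := by positivity
        calc z ^ L / (1 - z) * ∑ j ∈ Finset.range L, fR mu (n + j)
            ≤ z ^ L / (1 - z) * (56 * (L : ℝ)) := mul_le_mul_of_nonneg_left h10 h12
          _ = 56 / (1 - z) * ((L : ℝ) * z ^ L) := by ring
      linarith
    linarith
  -- limit
  have hlim : Tendsto (fun L : ℕ => (c - ∑ j ∈ Finset.range n, fR mu j) * ((1 - z ^ L) / (1 - z)) +
        (56 / (1 - z) * ((L : ℝ) * z ^ L) + 56 * Th * z ^ L)) atTop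
        (𝓝 ((c - ∑ j ∈ Finset.range n, fR mu j) * ((1 - 0) / (1 - z)) +
          (56 / (1 - z) * 0 + 56 * Th * 0))) := by
    have t1 : Tendsto (fun L : ℕ => z ^ L) atTop (𝓝 0) :=
      tendsto_pow_atTop_nhds_zero_of_lt_one hz0.le hz1
    have t2 : Tendsto (fun L : ℕ => (L : ℝ) * z ^ L) atTop (𝓝 0) :=
      tendsto_self_mul_const_pow_of_lt_one hz0.le hz1
    exact (((t1.const_sub 1).div_const _).const_mul _).add
      ((t2.const_mul _).add (t1.const_mul _))
  have hfin := ge_of_tendsto' hlim key
  have hL0 : ∑ r ∈ Finset.range 57, mu n r * V n r =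
      Th * fR mu n - ∑ r ∈ Finset.range 56, mu n r * gam T z r := by
    have e2 : ∀ r, mu n r * V n r = Th * ((r : ℝ) * mu n r) - mu n r * gam T z r := by
      intro r
      simp only [hV, Nat.sub_self, pow_zero]
      ring
    simp only [e2]
    rw [Finset.sum_sub_distrib, ← Finset.mul_sum, Finset.sum_range_succ (fun r => mu n r * gam T z r),
      hgam56, mul_zero, add_zero]
    rfl
  rw [hL0] at hfin
  have e3 : fR mu n / (1 - z) ^ 2 = Th * fR mu n := by rw [hTh]; ring
  rw [e3]
  have e4 : (c - ∑ j ∈ Finset.range n, fR mu j) * ((1 - 0) / (1 - z)) +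
          (56 / (1 - z) * 0 + 56 * Th * 0) = (c - ∑ j ∈ Finset.range n, fR mu j) / (1 - z) := by
    ring
  rw [e4] at hfin
  linarith

end SA.H42
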