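import Pool.Agent.Helper88_SA.StmtG
import Pool.Agent.Helper42_SA.Geo

/-! Modules GEOT and GEOS of squad SA. -/

namespace SA.H42

open Filter Topology SA

theorem geoTest (h : GeoGenStmt) : GeoTestStmt := by
  intro T z mu sg hT hz0 hz1 hgam hgam56 hf hfeas n
  exact h T z (56 * T) mu sg n hT hz0 hz1 hgam hgam56 hf
    (fun m _ => hfeas (m + 1) m (Nat.lt_succ_self m))

theorem fE_le_fR {mu sg : ℕ → ℕ → ℝ} (h : IsFlow mu sg) (n : ℕ) : fE sg n ≤ fR mu n :=
  Finset.sum_le_sum fun r _ => mul_le_mul_of_nonneg_left (h.sg_le n r) (Nat.cast_nonneg r)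

theorem geoSlack (h : GeoGenStmt) : GeoSlackStmt := by
  intro T T' z mu sg hT' hTT' hz0 hz1 hgam hgam56 hf hfeas hlim
  have h1z : 0 < 1 - z := by linarith
  refine ⟨28 * (T - T') / (1 - z), by
    have : 0 < T - T' := by linarith
    positivity, ?_⟩
  have hev : ∀ᶠ n in atTop, ∀ m, n ≤ m → fR mu m ≤ 28 := by
    have h1 : ∀ᶠ m in atTop, fR mu m < 28 := hlim.eventually (gt_mem_nhds (by norm_num))
    obtain ⟨N, hN⟩ := eventually_atTop.1 h1
    exact eventually_atTop.2 ⟨N, fun n hn m hm => (hN m (by omega)).le⟩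
  filter_upwards [hev] with n hn
  have h2 := h T z (56 * T' + (T - T') * 28) mu sg n (by linarith) hz0 hz1 hgam hgam56 hf
    (fun m hm => by
      have h3 := hfeas (m + 1) m (Nat.lt_succ_self m)
      have h4 := hn m hm
      have h5 := fE_le_fR hf m
      have h6 : (T - T') * fE sg m ≤ (T - T') * 28 :=
        mul_le_mul_of_nonneg_left (h5.trans h4) (by linarith)
      linarith)
  unfold Om
  have h7 : (56 * T - ∑ j ∈ Finset.range n, fR mu j) / (1 - z) =
      (56 * T' + (T - T') * 28 - ∑ j ∈ Finset.range n, fR mu j) / (1 - z) +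
        28 * (T - T') / (1 - z) := by
    rw [← add_div]
    congr 1
    ring
  rw [h7]
  linarith

end SA.H42
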