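import Pool.Agent.Helper42_SA.ProdC

/-! SA part C, module C23 LOSEL -/

set_option autoImplicit false

namespace SA.H42C

open SA

variable {T x0 z : ℝ} {th : ℂ}

theorem selL_nil (cb : ℕ) (h : 87 < cb) : selL cb = [] := by
  unfold selL
  split <;> first | rfl | omega

theorem sum_Wn (T : ℝ) (N i : ℕ) (h : i + 1 ≤ N) :
    ∑ t ∈ Finset.range (i + 1), Wn T (N - t) = (cst T N - cst T (N - 1 - i)) / 56 := by
  induction i with
  | zero => simp [Wn]
  | succ i ih =>
    rw [Finset.sum_range_succ, ih (by omega), Wn, show N - (i + 1) - 1 = N - 1 - (i + 1) by omega,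
      show N - (i + 1) = N - 1 - i by omega]
    ring

theorem floor_near {x y : ℝ} {a : ℤ} (h : |x - y - a| ≤ 0.216) :
    ∃ ε : ℤ, (ε = -1 ∨ ε = 0 ∨ ε = 1) ∧ ⌊y⌋ = ⌊x⌋ - a + ε := by
  refine ⟨⌊y⌋ - ⌊x⌋ + a, ?_, by ring⟩
  rw [abs_le] at h
  have h1 := Int.floor_le x
  have h2 := Int.lt_floor_add_one x
  have h3 := Int.floor_le y
  have h4 := Int.lt_floor_add_one y
  have h5 : ((⌊y⌋ - ⌊x⌋ + a : ℤ) : ℝ) < 2 := by push_cast; linarith [h.1, h.2]
  have h6 : (-2 : ℝ) < ((⌊y⌋ - ⌊x⌋ + a : ℤ) : ℝ) := by push_cast; linarith [h.1, h.2]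
  have h7 : ⌊y⌋ - ⌊x⌋ + a < 2 := by exact_mod_cast h5
  have h8 : -2 < ⌊y⌋ - ⌊x⌋ + a := by exact_mod_cast h6
  omega

theorem losel (a : AlgA) (b : NumA) (hR : RefStmt) (hD : DriftStmt) : LoselStmt := by
  intro T x0 z th c k h j hj hjk e he
  obtain ⟨-, hr0, hr⟩ := hR T x0 z th c k h
  obtain ⟨r1, r2, r3, r4, r5, r6, r7, -⟩ := hr j (by omega)
  obtain ⟨s1, s2, s3, s4, s5, -⟩ := hr (j + 1) (by push_cast; omega)
  set r := ref T x0 th j with hrdef
  set cb := (cell T x0 th r).toNat with hcb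
  have hcbZ : (cb : ℤ) = cell T x0 th r := by rw [hcb]; omega
  have hcb87 : cb ≤ 87 := by
    by_contra hc
    rw [selL_nil cb (by omega)] at he
    simp at he
  have hlo := b.lo.loU cb (by omega) hcb87
  unfold loUok at hlo
  rw [Bool.and_eq_true, List.all_eq_true, List.all_eq_true] at hlo
  obtain ⟨lo1, lo2⟩ := hlo
  have lo1e := lo1 e he
  have lo2e := of_decide_eq_true (lo2 e he)
  obtain ⟨i0, kc, u, hi0, hkc, hu⟩ : ∃ i0 kc u, e.2.1 = i0 ∧ e.2.2.1 = kc ∧ e.2.2.2 = u :=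
    ⟨_, _, _, rfl, rfl, rfl⟩
  rw [List.all_eq_true] at lo1e
  rw [hi0, hkc] at lo2e
  simp only [hkc, hu] at lo1e
  rw [hi0, hkc, hu]
  obtain ⟨av, hav⟩ : ∃ av, e.1 = av := ⟨_, rfl⟩
  rw [hav] at lo2e lo1e ⊢
  obtain ⟨ha15, hle⟩ := lo2e
  have hr48 : r + 48 ≤ k := by
    rcases r7 (by omega) with h7 | h7 <;> omega
  have hrr : r + 48 ≤ ref T x0 th (j + 1) := by
    rcases r7 (by omega) with h7 | h7 <;> omega
  have hrpos : 1 ≤ r := by
    rcases Nat.eq_zero_or_pos r with h0 | h0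
    · exfalso
      obtain ⟨q1, q2, -⟩ := hr 0 (by push_cast; omega)
      rw [hr0] at q2
      rw [h0] at r2
      rw [r2] at q2
      push_cast at q2
      omega
    · exact h0
  -- the cycle of r + av
  have hcyc : cyc T x0 th (r + av) = j := by
    have h1 := r6 (r + av) (by omega) (by omega)
    have h2 := s5 (r + av) (by omega)
    push_cast at h2
    omega
  -- the cell of r + av
  obtain ⟨d1, d2, -⟩ := hD T x0 z th c k h r (r + av) (by omega) (by omega)
  rw [hcyc, r2] at d2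
  have hcell : ∃ ε : ℤ, (ε = -1 ∨ ε = 0 ∨ ε = 1) ∧
      cell T x0 th (r + av) = cell T x0 th r - 8 * av + ε := by
    have : |8 * pp T x0 th r - 8 * pp T x0 th (r + av) - ((8 * av : ℤ) : ℝ)| ≤ 0.216 := by
      have e1 : 8 * pp T x0 th r - 8 * pp T x0 th (r + av) - ((8 * av : ℤ) : ℝ)
          = 8 * (ph T x0 th r - ph T x0 th (r + av) - (((r + av : ℕ) : ℝ) - r)) := by
        rw [pp, pp, hcyc, r2]; push_cast; ring
      rw [e1, abs_mul, abs_of_nonneg (by norm_num : (0 : ℝ) ≤ 8)]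
      have : (0.027 : ℝ) * ((((j : ℤ) : ℝ)) - ((j : ℤ) : ℝ) + 1) = 0.027 := by ring
      rw [this] at d2
      linarith
    obtain ⟨ε, hε, hf⟩ := floor_near this
    exact ⟨ε, hε, hf⟩
  obtain ⟨ε, hε, hcell⟩ := hcell
  have hkct : ∀ d, 1 ≤ d → d ≤ dmt (cell T x0 th (r + av)) →
      u * min d kc ≤ kct d (cell T x0 th (r + av)) := by
    intro d hd1 hd2
    have hm : ε ∈ [(-1 : ℤ), 0, 1] := by simpa using hε
    have h1 := lo1e ε hm
    rw [List.all_eq_true] at h1
    have e2 : (cb : ℤ) - 8 * (av : ℤ) + ε = cell T x0 th (r + av) := by rw [hcell, hcbZ]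
    rw [e2] at h1
    have h3 := h1 (d - 1) (List.mem_range.2 (by omega))
    have h4 := of_decide_eq_true h3
    rwa [show d - 1 + 1 = d by omega] at h4
  -- validity
  have hv : ∀ m, m ≤ 1525 + (r + av) → Valid T m := fun m hm => valid_all c h m (by omega)
  have hPP := h (r + av) (by omega)
  have hCpos : 0 < Cn T x0 (1525 + (r + av)) := hPP.Cpos
  set N := 1525 + (r + av) with hN
  -- the sum in terms of the barriers
  have hterm : ∀ i ∈ Finset.Ico i0 (i0 + kc),
      (- ∑ t ∈ Finset.range (i + 1), Wn T (1525 + (r + av - t))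
        + (Dn T N - Dn T (1525 + (r + av - 1 - i))) / 56) = Bn T (N - 1 - i) - Bn T N := by
    intro i hi
    rw [Finset.mem_Ico] at hi
    have e1 : ∑ t ∈ Finset.range (i + 1), Wn T (1525 + (r + av - t))
        = ∑ t ∈ Finset.range (i + 1), Wn T (N - t) := by
      refine Finset.sum_congr rfl fun t ht => ?_
      rw [Finset.mem_range] at ht
      congr 1
      omega
    rw [e1, sum_Wn T N i (by omega), show 1525 + (r + av - 1 - i) = N - 1 - i by omega]
    have b1 := (a.bar T N (hv N le_rfl)).2.2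
    have b2 := (a.bar T (N - 1 - i) (hv _ (by omega))).2.2
    rw [← b1, ← b2]
    ring
  rw [Finset.sum_congr rfl hterm]
  -- TopSet
  have hinj : Set.InjOn (fun i => N - 1 - i) (Finset.Ico i0 (i0 + kc) : Set ℕ) := by
    intro i hi i' hi' hii
    simp only [Finset.coe_Ico, Set.mem_Ico] at hi hi' hii
    omega
  have htop := a.topset T N hv ((Finset.Ico i0 (i0 + kc)).image (fun i => N - 1 - i)) (by
    intro m hm
    rw [Finset.mem_image] at hm
    obtain ⟨i, -, rfl⟩ := hm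
    rw [Finset.mem_range]
    omega)
  rw [Finset.sum_image hinj, Finset.card_image_of_injOn hinj, Nat.card_Ico,
    Nat.add_sub_cancel_left] at htop
  have hu0 : (0 : ℝ) ≤ (u : ℝ) / 10 ^ 14 := by positivity
  refine (mul_le_mul_of_nonneg_left htop hu0).trans ?_
  rw [kk, Finset.mul_sum, Finset.mul_sum]
  refine Finset.sum_le_sum fun d hd => ?_
  rw [Finset.mem_Icc] at hd
  have hpd := (a.pds T N hv).1 d hd.1 hd.2
  have e3 : Ck T x0 (r + av) * ((kct d (cell T x0 th (r + av)) : ℝ) / 10 ^ 14 * pih T x0 (r + av) d)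
      = (kct d (cell T x0 th (r + av)) : ℝ) / 10 ^ 14 * pd T N d := by
    rw [Ck, pih, ← hN]
    field_simp
  rw [e3]
  rcases Nat.lt_or_ge (dmt (cell T x0 th (r + av))) d with hdd | hdd
  · have hk := hPP.kle
    have hz : pd T N d = 0 := (a.pds T N hv).2.1 d (lt_of_le_of_lt hk hdd) hd.2
    rw [hz]; simp
  · have h5 := hkct d hd.1 hdd
    have h6 : (u : ℝ) * ((min d kc : ℕ) : ℝ) ≤ (kct d (cell T x0 th (r + av)) : ℝ) := by
      exact_mod_cast h5
    calc (u : ℝ) / 10 ^ 14 * (((min d kc : ℕ) : ℝ) * pd T N d)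
        = ((u : ℝ) * ((min d kc : ℕ) : ℝ)) / 10 ^ 14 * pd T N d := by ring
      _ ≤ _ := mul_le_mul_of_nonneg_right (div_le_div_of_nonneg_right h6 (by positivity)) hpd.1

end SA.H42C
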