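import Pool.Agent.Helper88_SA.StmtD

/-! Modules LOW and PATH of squad SA. -/

namespace SA.H42

open Filter Topology SA

theorem low : LowStmt := by
  intro T z κ N S y D hD hκ n r
  induction r generalizing n with
  | zero =>
    intro _ _
    rw [hD.D_zero]
    simp
  | succ r ih =>
    intro hn hr
    have h1 := hκ n hn
    rw [hD.D_search n (r + 1) (by omega) (by omega), Nat.add_sub_cancel,
      ih (n + 1) (by omega) (by omega), Finset.sum_range_succ']
    have h2 : ∀ l, n + 1 + l = n + (l + 1) := fun l => by omega
    simp only [h2, add_zero]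
    ring

/-- remaining searches along the path -/
def rho (κ : ℕ → ℕ) (n r : ℕ) : ℕ → ℕ
  | 0 => r
  | l + 1 => if rho κ n r l ≤ 56 - κ (n + l) then rho κ n r l - 1 else rho κ n r l

theorem rho_succ (κ : ℕ → ℕ) (n r l : ℕ) : rho κ n r (l + 1) =
    if rho κ n r l ≤ 56 - κ (n + l) then rho κ n r l - 1 else rho κ n r l := rfl

/-- the waits among the first `l` steps -/
def wts (κ : ℕ → ℕ) (n r l : ℕ) : Finset ℕ :=
  (Finset.range l).filter (fun i => 56 - κ (n + i) < rho κ n r i)

theorem rho_le (κ : ℕ → ℕ) (n r l : ℕ) : rho κ n r l ≤ r := by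
  induction l with
  | zero => exact le_rfl
  | succ l ih =>
    unfold rho
    split_ifs
    · omega
    · exact ih

theorem wts_succ (κ : ℕ → ℕ) (n r l : ℕ) :
    (wts κ n r (l + 1)).card =
      (wts κ n r l).card + if 56 - κ (n + l) < rho κ n r l then 1 else 0 := by
  unfold wts
  rw [Finset.range_add_one, Finset.filter_insert]
  split_ifs with h
  · rw [Finset.card_insert_of_notMem (by simp)]
  · simp

theorem wts_card {κ : ℕ → ℕ} {n r : ℕ} (hn : 171 ≤ n) (hr : r ≤ 56)
    (hsep : ∀ n n', 171 ≤ n → n < n' → 0 < κ n → 0 < κ n' → n' ≤ n + 9 ∨ n + 39 ≤ n')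
    {l : ℕ} (hl : l ≤ 20) : (wts κ n r l).card ≤ 10 := by
  rcases Finset.eq_empty_or_nonempty (wts κ n r l) with h | h
  · rw [h]; simp
  · set a := (wts κ n r l).min' h with ha
    have hpos : ∀ i ∈ wts κ n r l, 0 < κ (n + i) ∧ i < l := by
      intro i hi
      have h1 := (Finset.mem_filter.1 hi)
      have h2 := rho_le κ n r i
      exact ⟨by omega, Finset.mem_range.1 h1.1⟩
    have ham := (wts κ n r l).min'_mem h
    have hsub : wts κ n r l ⊆ Finset.Ico a (a + 10) := by
      intro i hi
      have h1 : a ≤ i := (wts κ n r l).min'_le i hi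
      have h2 := hpos i hi
      have h3 := hpos a ham
      rw [Finset.mem_Ico]
      refine ⟨h1, ?_⟩
      rcases Nat.eq_or_lt_of_le h1 with h4 | h4
      · omega
      · rcases hsep (n + a) (n + i) (by omega) (by omega) h3.1 h2.1 with h5 | h5 <;> omega
    have := Finset.card_le_card hsub
    simpa using this

theorem rho_eq {κ : ℕ → ℕ} {n r : ℕ} (l : ℕ) (h : ∀ i, i < l → 46 < rho κ n r i) :
    rho κ n r l + l = r + (wts κ n r l).card := by
  induction l with
  | zero => simp [rho, wts]
  | succ l ih =>
    have h1 := ih (fun i hi => h i (by omega))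
    have h2 := h l (by omega)
    rw [wts_succ, rho_succ]
    split_ifs with h3 h4 h4 <;> omega

theorem path : PathStmt := by
  intro T z κ N S y D hD hκ hsep n r hn hr1 hr2
  -- the path reaches 46 within 20 steps
  have hex : ∃ l, l ≤ 20 ∧ rho κ n r l ≤ 46 := by
    by_contra hcon
    push Not at hcon
    have h1 := rho_eq (κ := κ) (n := n) (r := r) 20 (fun i hi => hcon i (by omega))
    have h2 := wts_card hn hr2 hsep (κ := κ) (l := 20) le_rfl
    have h3 := hcon 20 le_rfl
    omega
  classical
  have hex' : ∃ l, rho κ n r l ≤ 46 := by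
    obtain ⟨l, _, h⟩ := hex
    exact ⟨l, h⟩
  set L := Nat.find hex' with hL
  have hL1 : rho κ n r L ≤ 46 := Nat.find_spec hex'
  have hL2 : ∀ i, i < L → 46 < rho κ n r i := fun i hi => by
    have := Nat.find_min hex' hi
    omega
  have hL20 : L ≤ 20 := by
    obtain ⟨l, hl, h⟩ := hex
    exact (Nat.find_min' hex' h).trans hl
  have hL46 : rho κ n r L = 46 := by
    rcases Nat.eq_zero_or_pos L with h0 | h0
    · rw [h0] at hL1 ⊢
      change r ≤ 46 at hL1
      change r = 46
      omega
    · obtain ⟨l, hl⟩ : ∃ l, L = l + 1 := ⟨L - 1, by omega⟩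
      have h1 := hL2 l (by omega)
      rw [hl] at hL1 ⊢
      unfold rho at hL1 ⊢
      split_ifs at hL1 ⊢ with h2 <;> omega
  have hrho := rho_eq L hL2
  rw [hL46] at hrho
  refine ⟨L, wts κ n r L, Finset.filter_subset _ _, by omega, wts_card hn hr2 hsep hL20, ?_, ?_⟩
  · intro h46
    by_contra hne
    have h0 : 0 < L := by
      by_contra h00
      have : L = 0 := by omega
      rw [this] at hne
      exact hne (by simp [wts])
    have h1 := hL2 0 h0
    change 46 < r at h1
    omega
  · have hD' : ∀ l, l ≤ L → D n r = ∑ i ∈ Finset.range l, S (n + i) +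
        ∑ i ∈ Finset.range l, (if 56 - κ (n + i) < rho κ n r i then 0 else y (n + i)) +
        D (n + l) (rho κ n r l) := by
      intro l
      induction l with
      | zero => intro _; simp [rho]
      | succ l ih =>
        intro hl
        rw [ih (by omega), Finset.sum_range_succ, Finset.sum_range_succ]
        have h1 := hL2 l (by omega)
        have h2 := rho_le κ n r l
        by_cases h3 : 56 - κ (n + l) < rho κ n r l
        · rw [hD.D_wait (n + l) (rho κ n r l) h3 (by omega)]
          have h4 : rho κ n r (l + 1) = rho κ n r l := by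
            conv_lhs => unfold rho
            rw [if_neg (by omega)]
          rw [h4, if_pos h3, ← add_assoc n l 1]
          ring
        · rw [hD.D_search (n + l) (rho κ n r l) (by omega) (by omega)]
          have h4 : rho κ n r (l + 1) = rho κ n r l - 1 := by
            conv_lhs => unfold rho
            rw [if_pos (by omega)]
          rw [h4, if_neg h3, ← add_assoc n l 1]
          ring
    have h5 := hD' L le_rfl
    rw [hL46] at h5
    rw [h5]
    congr 2
    have h6 : Finset.range L \ wts κ n r L =
        (Finset.range L).filter (fun i => ¬ 56 - κ (n + i) < rho κ n r i) := by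
      ext i
      simp only [wts, Finset.mem_sdiff, Finset.mem_filter]
      tauto
    rw [h6, Finset.sum_filter]
    refine Finset.sum_congr rfl fun i _ => ?_
    by_cases h7 : 56 - κ (n + i) < rho κ n r i
    · rw [if_pos h7, if_neg (not_not.2 h7)]
    · rw [if_neg h7, if_pos h7]

end SA.H42
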