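import Pool.Agent.Helper88_SA.StmtP

/-! SA part C, module C11 PROD -/

set_option autoImplicit false

namespace SA.H42C

open SA

variable {T x0 z : ℝ} {th : ℂ}

theorem valid_all (c : Ctx T x0 z th) {k : ℕ} (h : HH T x0 z th k) :
    ∀ m, m < 1525 + k → Valid T m := by
  intro m hm
  rcases Nat.lt_or_ge m 1525 with h1 | h1
  · exact c.sim.valid m h1
  · obtain ⟨i, rfl⟩ := Nat.exists_eq_add_of_le h1
    exact (h i (by omega)).val

theorem Dn_nonneg (T : ℝ) (n : ℕ) : 0 ≤ Dn T n :=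
  Finset.sum_nonneg fun _ _ => le_max_right _ _

theorem x0_pos (c : Ctx T x0 z th) : 0 < x0 := by
  have := c.nr.x0_lo
  linarith

/-- single step -/
theorem step (a : AlgA) (b : IntPass) (hM : MstepStmt) (hC : StepCStmt) (c : Ctx T x0 z th) {k : ℕ}
    (h : HH T x0 z th k) (m : ℕ) (h1 : 171 ≤ m) (h2 : m < 1525 + k) (hpos : 0 < Cn T x0 m) :
    Cn T x0 m - 9 / 10 ^ 6 * Dn T m ≤ x0 * Cn T x0 (m + 1) ∧ x0 * Cn T x0 (m + 1) ≤ Cn T x0 m ∧
      0 < Cn T x0 (m + 1) ∧ (m < 1525 → x0 * Cn T x0 (m + 1) = Cn T x0 m) := by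
  have hv := valid_all c h
  have hvm : ∀ m', m' ≤ m → Valid T m' := fun m' hm' => hv m' (by omega)
  rcases Nat.lt_or_ge m 1525 with h3 | h3
  · have hk : kap T m = 0 := c.sim.kap_quiet m h1 h3
    have hpd : ∀ d ∈ Finset.Icc (1 : ℕ) 55, pd T m d = 0 := by
      intro d hd
      rw [Finset.mem_Icc] at hd
      exact (a.pds T m hvm).2.1 d (by omega) hd.2
    have e := (hM T x0 z th c m hvm).1
    rw [Finset.sum_eq_zero (fun d hd => by rw [hpd d hd, zero_mul]), add_zero] at e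
    have hD := Dn_nonneg T m
    have hx := x0_pos c
    refine ⟨by rw [e]; linarith, e.le, ?_, fun _ => e⟩
    have h5 : 0 < x0 * Cn T x0 (m + 1) := by rw [e]; exact hpos
    exact (pos_iff_pos_of_mul_pos h5).1 hx
  · obtain ⟨i, rfl⟩ := Nat.exists_eq_add_of_le h3
    have hi := h i (by omega)
    have h4 : kap T (1525 + i) ≤ 10 := by
      have := hi.kle
      have := b.dmax (cell T x0 th i)
      omega
    have h5 : Dn T (1525 + i) ≤ 2 * Cn T x0 (1525 + i) := by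
      have h6 := hi.Dle
      have h7 : (Dt (cell T x0 th i) : ℝ) ≤ 2000000 := by exact_mod_cast b.Dmax (cell T x0 th i)
      have h8 : (Dt (cell T x0 th i) : ℝ) / 10 ^ 6 ≤ 2 := by linarith
      have := mul_le_mul_of_nonneg_left h8 hpos.le
      linarith
    obtain ⟨g1, g2, g3, -⟩ := hC T x0 z th c (1525 + i) hvm hpos h4 h5
    exact ⟨g1, g2, g3, fun h9 => absurd h9 (by omega)⟩

theorem quiet (a : AlgA) (b : IntPass) (hM : MstepStmt) (hC : StepCStmt) (c : Ctx T x0 z th) {k : ℕ}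
    (h : HH T x0 z th k) (j : ℕ) (hj : j ≤ 1354) :
    Cn T x0 (1525 - j) = Cn T x0 1525 * x0 ^ j ∧ 0 < Cn T x0 (1525 - j) := by
  have hx := x0_pos c
  induction j with
  | zero => simpa using c.sim.Cpos
  | succ j ih =>
    obtain ⟨ih1, ih2⟩ := ih (by omega)
    have hv := valid_all c h
    have hvm : ∀ m', m' ≤ 1525 - (j + 1) → Valid T m' := fun m' hm' => hv m' (by omega)
    have hk : kap T (1525 - (j + 1)) = 0 := c.sim.kap_quiet _ (by omega) (by omega)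
    have hpd : ∀ d ∈ Finset.Icc (1 : ℕ) 55, pd T (1525 - (j + 1)) d = 0 := by
      intro d hd
      rw [Finset.mem_Icc] at hd
      exact (a.pds T _ hvm).2.1 d (by omega) hd.2
    have e := (hM T x0 z th c _ hvm).1
    rw [Finset.sum_eq_zero (fun d hd => by rw [hpd d hd, zero_mul]), add_zero,
      show 1525 - (j + 1) + 1 = 1525 - j by omega] at e
    constructor
    · rw [← e, ih1, pow_succ]; ring
    · rw [← e]; exact mul_pos hx ih2

theorem pos_all (a : AlgA) (b : IntPass) (hM : MstepStmt) (hC : StepCStmt) (c : Ctx T x0 z th)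
    {k : ℕ} (h : HH T x0 z th k) (m : ℕ) (h1 : 171 ≤ m) (h2 : m ≤ 1525 + k) : 0 < Cn T x0 m := by
  rcases Nat.le_or_ge m 1525 with h3 | h3
  · have := (quiet a b hM hC c h (1525 - m) (by omega)).2
    rwa [show 1525 - (1525 - m) = m by omega] at this
  · obtain ⟨i, rfl⟩ := Nat.exists_eq_add_of_le h3
    rcases Nat.lt_or_ge i k with h4 | h4
    · exact (h i h4).Cpos
    · obtain rfl : i = k := by omega
      rcases i with _ | i
      · exact c.sim.Cpos
      · have := (step a b hM hC c h (1525 + i) (by omega) (by omega) (h i (by omega)).Cpos).2.2.1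
        exact this

theorem mono_all (a : AlgA) (b : IntPass) (hM : MstepStmt) (hC : StepCStmt) (c : Ctx T x0 z th)
    {k : ℕ} (h : HH T x0 z th k) (m1 : ℕ) (h1 : 171 ≤ m1) (j : ℕ) (h2 : m1 + j ≤ 1525 + k) :
    Cn T x0 (m1 + j) * x0 ^ j ≤ Cn T x0 m1 := by
  have hx := x0_pos c
  induction j with
  | zero => simp
  | succ j ih =>
    have ih' := ih (by omega)
    have h3 := (step a b hM hC c h (m1 + j) (by omega) (by omega)
      (pos_all a b hM hC c h _ (by omega) (by omega))).2.1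
    calc Cn T x0 (m1 + (j + 1)) * x0 ^ (j + 1) = (x0 * Cn T x0 (m1 + j + 1)) * x0 ^ j := by
          rw [← Nat.add_assoc]; ring
      _ ≤ Cn T x0 (m1 + j) * x0 ^ j := mul_le_mul_of_nonneg_right h3 (pow_nonneg hx.le _)
      _ ≤ _ := ih'

theorem lower (a : AlgA) (b : IntPass) (hM : MstepStmt) (hC : StepCStmt) (c : Ctx T x0 z th)
    {k : ℕ} (h : HH T x0 z th k) (i1 j : ℕ) (h2 : i1 + j ≤ k) :
    Ck T x0 i1 * (1 - 9 / 10 ^ 6 * ∑ i ∈ Finset.Ico i1 (i1 + j), Dh T x0 i)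
      ≤ Ck T x0 (i1 + j) * x0 ^ j ∧ 0 ≤ ∑ i ∈ Finset.Ico i1 (i1 + j), Dh T x0 i := by
  have hx := x0_pos c
  induction j with
  | zero => simp
  | succ j ih =>
    obtain ⟨ih', ihS⟩ := ih (by omega)
    have hp := pos_all a b hM hC c h (1525 + (i1 + j)) (by omega) (by omega)
    have hp1 := pos_all a b hM hC c h (1525 + i1) (by omega) (by omega)
    have h3 := (step a b hM hC c h (1525 + (i1 + j)) (by omega) (by omega) hp).1
    have hD := Dn_nonneg T (1525 + (i1 + j))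
    have hDh : 0 ≤ Dh T x0 (i1 + j) := div_nonneg hD hp.le
    have hDe : Dn T (1525 + (i1 + j)) = Dh T x0 (i1 + j) * Ck T x0 (i1 + j) := by
      rw [Dh, Ck, div_mul_cancel₀ _ hp.ne']
    have hD2 : Dh T x0 (i1 + j) ≤ 2 := by
      have h6 := (h (i1 + j) (by omega)).Dle
      have h7 : (Dt (cell T x0 th (i1 + j)) : ℝ) ≤ 2000000 := by
        exact_mod_cast b.Dmax (cell T x0 th (i1 + j))
      have h8 : (Dt (cell T x0 th (i1 + j)) : ℝ) / 10 ^ 6 ≤ 2 := by linarith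
      rw [Dh, div_le_iff₀ hp]
      have := mul_le_mul_of_nonneg_left h8 hp.le
      linarith
    rw [← Nat.add_assoc, Finset.sum_Ico_succ_top (by omega)]
    set S := ∑ i ∈ Finset.Ico i1 (i1 + j), Dh T x0 i with hS
    set e := Dh T x0 (i1 + j) with he
    refine ⟨?_, by linarith⟩
    have h4 : Ck T x0 (i1 + j) * (1 - 9 / 10 ^ 6 * e) ≤ x0 * Ck T x0 (i1 + j + 1) := by
      rw [hDe] at h3
      have : Cn T x0 (1525 + (i1 + j)) = Ck T x0 (i1 + j) := rfl
      rw [this] at h3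
      have h9 : Cn T x0 (1525 + (i1 + j) + 1) = Ck T x0 (i1 + j + 1) := rfl
      rw [h9] at h3
      linarith
    have hE : 0 ≤ 1 - 9 / 10 ^ 6 * e := by linarith
    have hC1 : 0 < Ck T x0 i1 := hp1
    calc Ck T x0 i1 * (1 - 9 / 10 ^ 6 * (S + e))
        ≤ Ck T x0 i1 * ((1 - 9 / 10 ^ 6 * S) * (1 - 9 / 10 ^ 6 * e)) := by
          refine mul_le_mul_of_nonneg_left ?_ hC1.le
          have : 0 ≤ S * e := mul_nonneg ihS hDh
          nlinarith
      _ = (Ck T x0 i1 * (1 - 9 / 10 ^ 6 * S)) * (1 - 9 / 10 ^ 6 * e) := by ring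
      _ ≤ (Ck T x0 (i1 + j) * x0 ^ j) * (1 - 9 / 10 ^ 6 * e) :=
          mul_le_mul_of_nonneg_right ih' hE
      _ = (Ck T x0 (i1 + j) * (1 - 9 / 10 ^ 6 * e)) * x0 ^ j := by ring
      _ ≤ (x0 * Ck T x0 (i1 + j + 1)) * x0 ^ j :=
          mul_le_mul_of_nonneg_right h4 (pow_nonneg hx.le _)
      _ = Ck T x0 (i1 + j + 1) * x0 ^ (j + 1) := by ring

theorem upper (a : AlgA) (b : IntPass) (hM : MstepStmt) (hC : StepCStmt) (hD : DriftStmt)
    (c : Ctx T x0 z th) {k : ℕ} (h : HH T x0 z th k) (i1 i2 : ℕ) (h1 : i1 ≤ i2) (h2 : i2 ≤ k)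
    (h3 : i2 ≤ i1 + 1300) :
    Ck T x0 i1 ≤
      Ck T x0 i2 * x0 ^ (i2 - i1) * (1 + ((cyc T x0 th i2 : ℝ) - cyc T x0 th i1 + 1) / 10 ^ 4) ∧
    ((cyc T x0 th i2 : ℝ) - cyc T x0 th i1 + 1) ≤ 28 := by
  obtain ⟨j, rfl⟩ := Nat.exists_eq_add_of_le h1
  obtain ⟨g1, g2⟩ := lower a b hM hC c h i1 j h2
  obtain ⟨d1, -, d3, d4, -⟩ := hD T x0 z th c k h i1 (i1 + j) h1 h2
  have d5 := d4 h3
  have e1 : (cyc T x0 th i1 : ℝ) ≤ cyc T x0 th (i1 + j) := by exact_mod_cast d1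
  have e2 : (cyc T x0 th (i1 + j) : ℝ) ≤ cyc T x0 th i1 + 27 := by exact_mod_cast d5
  set m : ℝ := (cyc T x0 th (i1 + j) : ℝ) - cyc T x0 th i1 + 1 with hm
  set S := ∑ i ∈ Finset.Ico i1 (i1 + j), Dh T x0 i with hS
  have hm1 : 1 ≤ m := by linarith
  have hm2 : m ≤ 28 := by linarith
  refine ⟨?_, hm2⟩
  rw [Nat.add_sub_cancel_left]
  have hC1 : 0 < Ck T x0 i1 := pos_all a b hM hC c h (1525 + i1) (by omega) (by omega)
  have hf : 0 ≤ 1 + m / 10 ^ 4 := by positivity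
  calc Ck T x0 i1 = Ck T x0 i1 * 1 := by ring
    _ ≤ Ck T x0 i1 * ((1 - 9 / 10 ^ 6 * S) * (1 + m / 10 ^ 4)) := by
        refine mul_le_mul_of_nonneg_left ?_ hC1.le
        have h5 : 1 - 9 / 10 ^ 6 * (9.1 * m) ≤ 1 - 9 / 10 ^ 6 * S := by linarith
        calc (1 : ℝ) ≤ (1 - 9 / 10 ^ 6 * (9.1 * m)) * (1 + m / 10 ^ 4) := by nlinarith
          _ ≤ _ := mul_le_mul_of_nonneg_right h5 hf
    _ = (Ck T x0 i1 * (1 - 9 / 10 ^ 6 * S)) * (1 + m / 10 ^ 4) := by ring
    _ ≤ _ := mul_le_mul_of_nonneg_right g1 hf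

theorem prod (a : AlgA) (b : IntPass) (hM : MstepStmt) (hC : StepCStmt) (hD : DriftStmt) :
    ProdStmt := by
  intro T x0 z th c k h
  have hx := x0_pos c
  refine ⟨pos_all a b hM hC c h, ?_, ?_, ?_⟩
  · intro m1 m2 h1 h2 h3
    obtain ⟨j, rfl⟩ := Nat.exists_eq_add_of_le h2
    rw [Nat.add_sub_cancel_left]
    exact mono_all a b hM hC c h m1 h1 j h3
  · intro i1 i2 h1 h2 h3
    exact (upper a b hM hC hD c h i1 i2 h1 h2 h3).1
  · intro m1 m2 h1 h2 h3 h4
    -- the late part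
    have key : ∀ i1 i2, i1 ≤ i2 → i2 ≤ k → i2 ≤ i1 + 1300 →
        Cn T x0 (1525 + i1) ≤ 1.003 * (Cn T x0 (1525 + i2) * x0 ^ (i2 - i1)) := by
      intro i1 i2 g1 g2 g3
      obtain ⟨u1, u2⟩ := upper a b hM hC hD c h i1 i2 g1 g2 g3
      have hp := pos_all a b hM hC c h (1525 + i2) (by omega) (by omega)
      have hp2 : 0 ≤ Ck T x0 i2 * x0 ^ (i2 - i1) := mul_nonneg hp.le (pow_nonneg hx.le _)
      have u3 : 1 + ((cyc T x0 th i2 : ℝ) - cyc T x0 th i1 + 1) / 10 ^ 4 ≤ 1.003 := by linarith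
      have u4 := mul_le_mul_of_nonneg_left u3 hp2
      calc Cn T x0 (1525 + i1) = Ck T x0 i1 := rfl
        _ ≤ _ := u1
        _ ≤ _ := u4
        _ = 1.003 * (Cn T x0 (1525 + i2) * x0 ^ (i2 - i1)) := by rw [Ck]; ring
    rcases Nat.le_or_ge 1525 m1 with h5 | h5
    · obtain ⟨i1, rfl⟩ := Nat.exists_eq_add_of_le h5
      obtain ⟨i2, rfl⟩ := Nat.exists_eq_add_of_le (h5.trans h2)
      rw [show 1525 + i2 - (1525 + i1) = i2 - i1 by omega]
      exact key i1 i2 (by omega) (by omega) (by omega)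
    · have q1 := (quiet a b hM hC c h (1525 - m1) (by omega)).1
      rw [show 1525 - (1525 - m1) = m1 by omega] at q1
      rcases Nat.le_or_ge 1525 m2 with h6 | h6
      · obtain ⟨i2, rfl⟩ := Nat.exists_eq_add_of_le h6
        have := key 0 i2 (by omega) (by omega) (by omega)
        rw [Nat.sub_zero, Nat.add_zero] at this
        rw [q1, show 1525 + i2 - m1 = i2 + (1525 - m1) by omega, pow_add]
        calc Cn T x0 1525 * x0 ^ (1525 - m1)
            ≤ (1.003 * (Cn T x0 (1525 + i2) * x0 ^ i2)) * x0 ^ (1525 - m1) :=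
              mul_le_mul_of_nonneg_right this (pow_nonneg hx.le _)
          _ = _ := by ring
      · have q2 := quiet a b hM hC c h (1525 - m2) (by omega)
        rw [show 1525 - (1525 - m2) = m2 by omega] at q2
        have e : Cn T x0 m1 = Cn T x0 m2 * x0 ^ (m2 - m1) := by
          rw [q1, q2.1, mul_assoc, ← pow_add, show 1525 - m2 + (m2 - m1) = 1525 - m1 by omega]
        rw [← e]
        have : 0 ≤ Cn T x0 m1 := by rw [e]; exact mul_nonneg q2.2.le (pow_nonneg hx.le _)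
        linarith

end SA.H42C
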