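import Pool.Agent.Helper88_SA.StmtG
import Pool.Agent.Helper42_SA.Geo

/-! Module PSI of squad SA. -/

namespace SA.H42

open Filter Topology SA

theorem geoTail_facts {T : ℝ} {p : ℕ → ℝ} {q : Finset ℕ → ℝ} {x : ℕ} {z : ℝ}
    (he : IsEquilibrium 56 T p q) (hg : GeoTail p x z) :
    0 < z ∧ z < 1 ∧ (∀ i, x ≤ i → 0 < p i) ∧ (∀ i, x ≤ i → p (i + 1) = z * p i) := by
  have hpos : ∀ i, x ≤ i → 0 < p i := by
    intro i hi
    have := (hg.2 (i + 1) (by omega)).1
    simpa using this
  have hrat : ∀ i, x ≤ i → p (i + 1) = z * p i := by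
    intro i hi
    have h1 := (hg.2 (i + 1) (by omega)).2
    rw [Nat.add_sub_cancel] at h1
    have h2 := (hpos i hi).ne'
    field_simp at h1
    linarith
  have hz0 : 0 < z := by
    have h1 := hrat x le_rfl
    have h2 := hpos (x + 1) (by omega)
    have h3 := hpos x le_rfl
    rw [h1] at h2
    exact (pos_iff_pos_of_mul_pos h2).2 h3
  have hpow : ∀ k, p (x + k) = z ^ k * p x := by
    intro k
    induction k with
    | zero => simp
    | succ k ih =>
      rw [← add_assoc, hrat (x + k) (by omega), ih, pow_succ]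
      ring
  refine ⟨hz0, ?_, hpos, hrat⟩
  by_contra hz1
  push Not at hz1
  have h1 : Tendsto p atTop (𝓝 0) := he.p_sum.summable.tendsto_atTop_zero
  have h2 : Tendsto (fun k => p (x + k)) atTop (𝓝 0) := by
    have := (tendsto_add_atTop_iff_nat x).2 h1
    refine this.congr fun k => ?_
    rw [add_comm]
  have h3 : ∀ k, p x ≤ p (x + k) := by
    intro k
    rw [hpow k]
    have h4 : 1 ≤ z ^ k := one_le_pow₀ hz1
    have h5 := (hpos x le_rfl).le
    nlinarith
  have h6 := ge_of_tendsto' h2 h3
  exact absurd (hpos x le_rfl) (not_lt.2 h6)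

theorem psi (hPot : PotStmt) (hAbel : AbelStmt) (hVp : VpStmt) : PsiStmt := by
  intro T p q x z he hg
  obtain ⟨hz0, hz1, hpos, hrat⟩ := geoTail_facts he hg
  refine ⟨hz0, hz1, fun mu sg n hf hxn hfeas => ?_⟩
  obtain ⟨V, hV0, hVnn, hV1, hV2, hVT, hVb⟩ := hVp T p q he
  have h1z : 0 < 1 - z := by linarith
  have hne : (1 - z) ≠ 0 := h1z.ne'
  set Th : ℝ := 1 / (1 - z) ^ 2 with hTh
  have hThpos : 0 < Th := by positivity
  -- tails
  have hpow : ∀ m, x ≤ m → ∀ k, p (m + 1 + k) = z ^ k * p (m + 1) := by
    intro m hm k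
    induction k with
    | zero => simp
    | succ k ih =>
      rw [← add_assoc, hrat (m + 1 + k) (by omega), ih, pow_succ]
      ring
  have hS : ∀ m, x ≤ m → tailS p m = p (m + 1) / (1 - z) := by
    intro m hm
    unfold tailS
    simp only [hpow m hm]
    rw [tsum_mul_right, tsum_geometric_of_lt_one hz0.le hz1]
    ring
  have hsum := he.p_sum.summable
  have hSstep : ∀ m, tailS p m = tailS p (m + 1) + p (m + 1) := by
    intro m
    unfold tailS
    have h1 : Summable (fun j => p (m + 1 + j)) := by
      have := (summable_nat_add_iff (m + 1)).2 hsum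
      refine this.congr fun j => ?_
      rw [add_comm]
    rw [h1.tsum_eq_zero_add]
    simp only [add_zero]
    rw [add_comm]
    congr 1
    refine tsum_congr fun j => ?_
    congr 1
    ring
  have hS0 : tailS p 0 = 1 := by
    unfold tailS
    have h1 := he.p_sum.tsum_eq
    rw [hsum.tsum_eq_zero_add, he.p_zero, zero_add] at h1
    rw [← h1]
    refine tsum_congr fun j => ?_
    congr 1
    ring
  have hPsum : ∀ m, ∑ j ∈ Finset.range m, p (j + 1) = 1 - tailS p m := by
    intro m
    induction m with
    | zero => simp [hS0]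
    | succ m ih =>
      rw [Finset.sum_range_succ, ih, hSstep m]
      ring
  -- step of a
  have ha : ∀ m, x ≤ m → p (m + 1 + 1) = z * p (m + 1) := fun m hm => hrat (m + 1) (by omega)
  -- (i)
  have hi : ∀ r, r ≤ 56 → ∀ m, x ≤ m → V m r ≤ p (m + 1) * ((r : ℝ) * Th) := by
    intro r hr m hm
    rcases Nat.eq_zero_or_pos r with h0 | h0
    · subst h0
      rw [hV0]
      simp
    · have hW : ∀ M, V m r - p (m + 1) * ((r : ℝ) * Th) ≤
          V (m + M) r - p (m + M + 1) * ((r : ℝ) * Th) := by
        intro M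
        induction M with
        | zero => simp
        | succ M ih =>
          refine ih.trans ?_
          have h1 := hV1 (m + M) r h0 hr
          rw [hS (m + M) (by omega)] at h1
          have h2 := ha (m + M) (by omega)
          rw [← add_assoc, h2]
          have e : (r : ℝ) * (p (m + M + 1) / (1 - z)) =
              p (m + M + 1) * ((r : ℝ) * Th) - z * p (m + M + 1) * ((r : ℝ) * Th) := by
            rw [hTh]; field_simp
          linarith
      have hlim : Tendsto (fun M : ℕ => 56 * 56 * (1 + T) * (z ^ M * p (m + 1) / (1 - z))) atTop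
          (𝓝 (56 * 56 * (1 + T) * (0 * p (m + 1) / (1 - z)))) :=
        (((tendsto_pow_atTop_nhds_zero_of_lt_one hz0.le hz1).mul_const _).div_const _).const_mul _
      have h3 := ge_of_tendsto' hlim (fun M => by
        have h4 := hW M
        have h5 := hVb (m + M) r hr
        rw [hS (m + M) (by omega)] at h5
        have h6 : p (m + M + 1) = z ^ M * p (m + 1) := by
          have := hpow m hm M
          rw [← this]
          congr 1
          ring
        rw [h6] at h4 h5
        have h7 : 0 ≤ z ^ M * p (m + 1) * ((r : ℝ) * Th) := by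
          have := (hpos (m + 1) (by omega)).le
          positivity
        exact (show V m r - p (m + 1) * ((r : ℝ) * Th) ≤ _ by linarith))
      have e : 56 * 56 * (1 + T) * (0 * p (m + 1) / (1 - z)) = 0 := by ring
      rw [e] at h3
      linarith
  -- (ii)
  have hii : ∀ r, r ≤ 56 → ∀ m, x ≤ m → V m r ≤ p (m + 1) * ((r : ℝ) * Th - gain T z r) := by
    intro r
    induction r with
    | zero =>
      intro _ m _
      rw [hV0]
      simp [gain]
    | succ r ih =>
      intro hr m hm
      have hgdef : gain T z (r + 1) =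
          max 0 (z / (1 - z) ^ 2 - ((r : ℝ) + 1) * T + z * gain T z r) := rfl
      rcases le_total (z / (1 - z) ^ 2 - ((r : ℝ) + 1) * T + z * gain T z r) 0 with h0 | h0
      · rw [hgdef, max_eq_left h0, sub_zero]
        exact hi (r + 1) hr m hm
      · rw [hgdef, max_eq_right h0]
        have h1 := hV2 m (r + 1) (by omega) hr
        rw [hS m hm, Nat.add_sub_cancel] at h1
        have h2 := ih (by omega) (m + 1) (by omega)
        rw [ha m hm] at h2
        refine h1.trans ?_
        have e : ((r + 1 : ℕ) : ℝ) * (p (m + 1) / (1 - z)) + ((r + 1 : ℕ) : ℝ) * (T * p (m + 1)) +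
            z * p (m + 1) * ((r : ℝ) * Th - gain T z r) =
            p (m + 1) * (((r + 1 : ℕ) : ℝ) * Th -
              (z / (1 - z) ^ 2 - ((r : ℝ) + 1) * T + z * gain T z r)) := by
          rw [hTh]
          push_cast
          field_simp
          ring
        linarith
  -- potential
  have hp := hPot mu sg V (fun m => tailS p m) (fun m => T * p (m + 1)) 0 n hf (by omega) hV0
    (fun m r _ _ hr1 hr2 => hV1 m r hr1 hr2) (fun m r _ _ hr1 hr2 => hV2 m r hr1 hr2)
  have hL : ∑ r ∈ Finset.range 57, mu 0 r * V 0 r = V 0 56 := by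
    simp only [hf.init]
    simp
  rw [hL, ← Finset.range_eq_Ico] at hp
  have hab := hAbel T (fun m => p (m + 1)) (fun m => tailS p m) mu sg n (fun m _ => hSstep m)
  rw [hab] at hp
  have hA : ∑ m ∈ Finset.range n, p (m + 1) * (fC mu m + T * fE sg m) ≤
      (1 - tailS p n) * (56 * T) := by
    rw [← hPsum n, Finset.sum_mul]
    refine Finset.sum_le_sum fun m hm => ?_
    exact mul_le_mul_of_nonneg_left (hfeas m (Finset.mem_range.1 hm)) (he.p_nonneg _)
  have hB : ∑ r ∈ Finset.range 57, mu n r * V n r ≤
      p (n + 1) * (fR mu n / (1 - z) ^ 2 - ∑ r ∈ Finset.range 57, mu n r * gain T z r) := by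
    have h1 : ∑ r ∈ Finset.range 57, mu n r * V n r ≤ ∑ r ∈ Finset.range 57,
        (p (n + 1) * Th * ((r : ℝ) * mu n r) - p (n + 1) * (mu n r * gain T z r)) := by
      refine Finset.sum_le_sum fun r hr => ?_
      have hr' : r ≤ 56 := by have := Finset.mem_range.1 hr; omega
      have h2 := mul_le_mul_of_nonneg_left (hii r hr' n hxn) (mu_nonneg hf n r)
      linarith
    refine h1.trans (le_of_eq ?_)
    rw [Finset.sum_sub_distrib, ← Finset.mul_sum, ← Finset.mul_sum]
    have e : ∑ r ∈ Finset.range 57, (r : ℝ) * mu n r = fR mu n := rfl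
    rw [e, hTh]
    ring
  have hapos := hpos (n + 1) (by omega)
  have hSn := hS n hxn
  have hfin : 0 ≤ - (p (n + 1) * Psi T z mu n) := by
    unfold Psi
    have e : - (p (n + 1) * ((56 * T - ∑ j ∈ Finset.range n, fR mu j) / (1 - z) -
        fR mu n / (1 - z) ^ 2 + ∑ r ∈ Finset.range 57, mu n r * gain T z r)) =
        - (56 * T * tailS p n) + tailS p n * ∑ j ∈ Finset.range n, fR mu j +
        p (n + 1) * (fR mu n / (1 - z) ^ 2 - ∑ r ∈ Finset.range 57, mu n r * gain T z r) := by
      rw [hSn]
      field_simp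
      ring
    rw [e]
    linarith
  have h9 : p (n + 1) * Psi T z mu n ≤ 0 := by linarith
  exact nonpos_of_mul_nonpos_right h9 hapos

end SA.H42
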